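import Pool.Agent.Helper24K9.PT.Stm

set_option autoImplicit false

/-! The full constant from the cut one. -/

namespace Pool.Agent.Helper44K9.PT

open Finset Filter Topology
open Pool.Agent.W468.ConjF (CF SJ Blk nr nr_odd nr_lin nr_none nr_two CF_tendsto CF_pos)
open Pool.Agent.Helper24K9.EL (QD DS CF_cmp)
open Pool.Agent.Helper24K9.PL (cA cB cC mem Nz S_ALL)
open Pool.Agent.Helper82K9.PR (Bx om SS pv nu Cz Cz_ge Cz_eq)
open Pool.Agent.Helper24K9.PT

lemma pv_three (u : Fin 3 → ℤ) (n : ℕ) : pv u n = u 2 * (n : ℤ) ^ 2 + u 1 * n + u 0 := by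
  unfold pv
  rw [Fin.sum_univ_three]
  simp only [Fin.val_zero, Fin.val_one, Fin.val_two]
  ring

lemma nu_eq (u : Fin 3 → ℤ) (p : ℕ) : nu (d := 2) (fun _ : Fin 1 => 0) u p = nr (u 2) (u 1) (u 0) p := by
  classical
  unfold nu nr
  congr 1
  ext n
  simp only [mem_filter, exists_const, add_zero]
  have e : pv (d := 2) u n = u 2 * (n : ℤ) ^ 2 + u 1 * n + u 0 := pv_three u n
  rw [e]

lemma CF_neg (a b c : ℤ) (z : ℕ) : CF (-a) (-b) (-c) z = CF a b c z := by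
  unfold CF
  have e1 : (2 : ℤ) ∣ -a + -b ↔ (2 : ℤ) ∣ a + b := by
    rw [← neg_add, dvd_neg]
  have e2 : (-b) ^ 2 - 4 * -a * -c = b ^ 2 - 4 * a * c := by ring
  simp only [e1, e2, dvd_neg]

/-- the cut product of the local densities is twice the cut constant of Conjecture F -/
lemma SS_eq (u : Fin 3 → ℤ) (h : Adm u) (z : ℕ) (hz : 2 ≤ z) :
    SS (d := 2) z (fun _ : Fin 1 => 0) u = 2 * CF (u 2) (u 1) (u 0) z := by
  classical
  obtain ⟨hg, h2⟩ := h
  set a := u 2 with ha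
  set b := u 1 with hb
  set c := u 0 with hc
  have hprime : ∀ p : ℕ, p.Prime → (p : ℤ) ∣ a → (p : ℤ) ∣ b → ¬ (p : ℤ) ∣ c := by
    intro p hp h3 h4 h5
    have h6 : (p : ℤ) ∣ (Int.gcd a b : ℤ) := Int.dvd_coe_gcd h3 h4
    have h7 : (p : ℤ) ∣ ((Int.gcd (Int.gcd a b : ℤ) c : ℕ) : ℤ) := Int.dvd_coe_gcd h6 h5
    rw [hg] at h7
    have h8 : p ∣ 1 := by exact_mod_cast h7
    exact hp.one_lt.ne' (Nat.dvd_one.1 h8)
  have h2' : ¬ ((2 : ℤ) ∣ a + b ∧ (2 : ℤ) ∣ c) := by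
    rintro ⟨h3, h4⟩
    exact h2 ⟨even_iff_two_dvd.2 h3, even_iff_two_dvd.2 h4⟩
  unfold SS
  have hom : ∀ p, nu (d := 2) (fun _ : Fin 1 => 0) u p = nr a b c p := fun p => nu_eq u p
  simp only [hom, pow_one]
  set S := (Icc 1 z).filter Nat.Prime with hS
  have h2S : 2 ∈ S := by
    rw [hS, mem_filter, mem_Icc]; exact ⟨⟨by omega, hz⟩, Nat.prime_two⟩
  set S3 := S.filter (fun p => 3 ≤ p) with hS3
  have hSplit : S = insert 2 S3 := by
    ext p
    simp only [hS3, mem_insert, mem_filter]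
    constructor
    · intro hp
      by_cases h3 : 3 ≤ p
      · exact Or.inr ⟨hp, h3⟩
      · left
        have : p.Prime := (mem_filter.1 hp).2
        have := this.two_le
        omega
    · rintro (rfl | hp)
      · exact h2S
      · exact hp.1
  have hn2 : 2 ∉ S3 := by
    rw [hS3, mem_filter]; omega
  rw [hSplit, prod_insert hn2]
  have fac : ∀ p ∈ S3, (1 - (nr a b c p : ℝ) / p) / (1 - 1 / (p : ℝ)) =
      (if (p : ℤ) ∣ a ∧ (p : ℤ) ∣ b then (p : ℝ) / (p - 1) else 1) *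
      (if ¬ (p : ℤ) ∣ a then 1 - (jacobiSym (b ^ 2 - 4 * a * c) p : ℝ) / (p - 1) else 1) := by
    intro p hp
    rw [hS3, mem_filter, hS, mem_filter] at hp
    obtain ⟨⟨-, hpp⟩, hp3⟩ := hp
    have hpr : (1 : ℝ) < p := by exact_mod_cast hpp.one_lt
    have hp0 : (p : ℝ) ≠ 0 := by positivity
    have hp1 : (p : ℝ) - 1 ≠ 0 := by linarith
    by_cases hpa : (p : ℤ) ∣ a
    · by_cases hpb : (p : ℤ) ∣ b
      · rw [if_pos ⟨hpa, hpb⟩, if_neg (not_not.2 hpa), nr_none a b c p hpa hpb (hprime p hpp hpa hpb)]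
        simp only [Nat.cast_zero, zero_div, sub_zero, mul_one]
        field_simp
      · rw [if_neg (fun h => hpb h.2), if_neg (not_not.2 hpa), nr_lin a b c p hpp hpa hpb]
        simp only [Nat.cast_one, mul_one]
        field_simp
    · rw [if_neg (fun h => hpa h.1), if_pos hpa]
      have h3 := nr_odd a b c p hpp hp3 hpa
      have h4 : (nr a b c p : ℝ) = (jacobiSym (b ^ 2 - 4 * a * c) p : ℝ) + 1 := by exact_mod_cast h3
      rw [h4]
      field_simp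
      ring
  rw [prod_congr rfl fac, prod_mul_distrib]
  have hSr : S = (range (z + 1)).filter Nat.Prime := by
    ext p
    simp only [hS, mem_filter, mem_Icc, mem_range]
    constructor
    · rintro ⟨h3, h4⟩; exact ⟨by omega, h4⟩
    · rintro ⟨h3, h4⟩; exact ⟨⟨h4.one_le, by omega⟩, h4⟩
  have e1 : ∏ p ∈ S3, (if (p : ℤ) ∣ a ∧ (p : ℤ) ∣ b then (p : ℝ) / (p - 1) else 1) =
      ∏ p ∈ (range (z + 1)).filter (fun p : ℕ => p.Prime ∧ 3 ≤ p ∧ (p : ℤ) ∣ a ∧ (p : ℤ) ∣ b), (p : ℝ) / (p - 1) := by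
    rw [← prod_filter, hS3, hSr, filter_filter, filter_filter]
  have e2 : ∏ p ∈ S3, (if ¬ (p : ℤ) ∣ a then 1 - (jacobiSym (b ^ 2 - 4 * a * c) p : ℝ) / (p - 1) else 1) =
      ∏ p ∈ (range (z + 1)).filter (fun p : ℕ => p.Prime ∧ 3 ≤ p ∧ ¬ (p : ℤ) ∣ a),
        (1 - (jacobiSym (b ^ 2 - 4 * a * c) p : ℝ) / (p - 1)) := by
    rw [← prod_filter, hS3, hSr, filter_filter, filter_filter]
  rw [e1, e2, nr_two a b c h2']
  unfold CF
  split_ifs with hab
  · push_cast; ring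
  · push_cast; ring

lemma SS_le_Cz' (z : ℕ) (u : Fin 3 → ℤ) : SS (d := 2) z (fun _ : Fin 1 => 0) u ≤ Cz z := by
  unfold SS
  rw [Cz_eq]
  apply Finset.prod_le_prod
  · intro p hp
    have hpp := (mem_filter.1 hp).2
    have hp0 : (0 : ℝ) < p := by exact_mod_cast hpp.pos
    have h1 : (2 : ℝ) ≤ p := by exact_mod_cast hpp.two_le
    have h2 : 1 / (p : ℝ) ≤ 1 / 2 := one_div_le_one_div_of_le (by norm_num) h1
    have h3 : (nu (d := 2) (fun _ : Fin 1 => 0) u p : ℝ) / p ≤ 1 := by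
      rw [div_le_one hp0]
      unfold nu
      exact_mod_cast (card_filter_le _ _).trans (le_of_eq (card_range p))
    apply div_nonneg
    · linarith
    · apply pow_nonneg; linarith
  · intro p hp
    have hpp := (mem_filter.1 hp).2
    have hp0 : (0 : ℝ) < p := by exact_mod_cast hpp.pos
    have h1 : (2 : ℝ) ≤ p := by exact_mod_cast hpp.two_le
    have h2 : 1 / (p : ℝ) ≤ 1 / 2 := one_div_le_one_div_of_le (by norm_num) h1
    have h3 : 0 ≤ (nu (d := 2) (fun _ : Fin 1 => 0) u p : ℝ) / p := by positivity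
    have h4 : 0 < 1 - 1 / (p : ℝ) := by linarith
    rw [pow_one, div_eq_mul_inv]
    have h5 : 0 < (1 - 1 / (p : ℝ))⁻¹ := inv_pos.2 h4
    nlinarith

/-- the limit exists also for negative leading coefficients -/
lemma tendsto_CF (a b c : ℤ) (ha : a ≠ 0) (hD : ¬ IsSquare (b ^ 2 - 4 * a * c)) :
    ∃ K : ℝ, 0 < K ∧ Tendsto (fun z => CF a b c z) atTop (𝓝 K) := by
  rcases lt_or_gt_of_ne ha with h | h
  · obtain ⟨K, hK, hlim⟩ := CF_tendsto (-a) (-b) (-c) (by omega) (by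
      have e2 : (-b) ^ 2 - 4 * -a * -c = b ^ 2 - 4 * a * c := by ring
      rw [e2]; exact hD)
    refine ⟨K, hK, ?_⟩
    simpa only [CF_neg] using hlim
  · exact CF_tendsto a b c h hD

/-- the limit against the cut constant -/
lemma log_lim (a b c : ℤ) (K : ℝ) (hK : 0 < K) (hlim : Tendsto (fun z => CF a b c z) atTop (𝓝 K)) (z : ℕ) (hz : 2 ≤ z)
    (e : ℝ) (h1 : ∀ᶠ N in atTop, |SJ (b ^ 2 - 4 * a * c) z N| ≤ e) (h2 : ∀ N : ℕ, DS a z N ≤ e) :
    |Real.log K - Real.log (CF a b c z)| ≤ 4 * e + 12 / z := by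
  have h3 : Tendsto (fun N => |Real.log (CF a b c N) - Real.log (CF a b c z)|) atTop
      (𝓝 |Real.log K - Real.log (CF a b c z)|) :=
    (((Real.continuousAt_log hK.ne').tendsto.comp hlim).sub_const _).abs
  apply le_of_tendsto h3
  filter_upwards [h1, eventually_ge_atTop z] with N hN hzN
  have h4 := CF_cmp a b c z N hz hzN
  have h5 := h2 N
  linarith

lemma union5 {V : Type} [DecidableEq V] {B E1 E2 E3 E4 E5 : Finset V} {b : ℝ} (hsub : B ⊆ E1 ∪ E2 ∪ E3 ∪ E4 ∪ E5)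
    (h1 : (E1.card : ℝ) ≤ b) (h2 : (E2.card : ℝ) ≤ b) (h3 : (E3.card : ℝ) ≤ b) (h4 : (E4.card : ℝ) ≤ b)
    (h5 : (E5.card : ℝ) ≤ b) : (B.card : ℝ) ≤ 5 * b := by
  have c0 := card_le_card hsub
  have c1 := card_union_le (E1 ∪ E2 ∪ E3 ∪ E4) E5
  have c2 := card_union_le (E1 ∪ E2 ∪ E3) E4
  have c3 := card_union_le (E1 ∪ E2) E3
  have c4 := card_union_le E1 E2
  have c5 : B.card ≤ E1.card + E2.card + E3.card + E4.card + E5.card := by omega
  have c6 : (B.card : ℝ) ≤ E1.card + E2.card + E3.card + E4.card + E5.card := by exact_mod_cast c5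
  linarith

theorem full : S_ALL → S_MOST → S_DS → S_FULL := by
  intro hall hmost hds g g' hgg B0 C ε hε
  classical
  have hg2 : g 2 ≠ 0 ∨ g' 2 ≠ 0 := by
    by_contra hcon
    push Not at hcon
    apply hgg
    unfold cA cB cC
    rw [hcon.1, hcon.2]
    ring
  -- the first scale
  set e2 : ℝ := min 1 (ε / 8) with he2
  have he20 : 0 < e2 := by rw [he2]; positivity
  have he21 : e2 ≤ 1 := min_le_left _ _
  have he2ε : e2 ≤ ε / 8 := min_le_right _ _
  obtain ⟨z1, hz1⟩ := hmost g g' hgg C e2 he20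
  obtain ⟨z2, hz2⟩ := hds g g' hg2 C e2 he20
  set zs := max (max z1 z2) 2 with hzs
  obtain ⟨H1, hH1⟩ := hz1 zs ((le_max_left _ _).trans (le_max_left _ _))
  obtain ⟨H2, hH2⟩ := hz2 zs ((le_max_right _ _).trans (le_max_left _ _))
  have hzs2 : 2 ≤ zs := le_max_right _ _
  set K1 : ℝ := Real.exp 16 * Cz zs with hK1
  have hK10 : 0 < K1 := by
    have := Cz_ge zs
    rw [hK1]; positivity
  -- the second scale
  set t : ℝ := min 1 (ε / (4 * K1)) with ht
  have ht0 : 0 < t := by rw [ht]; positivity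
  have ht1 : t ≤ 1 := min_le_left _ _
  have htε : t ≤ ε / (4 * K1) := min_le_right _ _
  set e3 : ℝ := min (ε / 8) (t / 8) with he3
  have he30 : 0 < e3 := by rw [he3]; positivity
  have he3ε : e3 ≤ ε / 8 := min_le_left _ _
  have he3t : e3 ≤ t / 8 := min_le_right _ _
  obtain ⟨z3, hz3⟩ := hmost g g' hgg C e3 he30
  obtain ⟨z4, hz4⟩ := hds g g' hg2 C e3 he30
  obtain ⟨z5, hz51, hz5⟩ := hall g g' (Or.inl hgg) B0 C (ε / 8) (by positivity)
  obtain ⟨z6, hz6⟩ := exists_nat_ge (24 / t)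
  set z := max (max (max z3 z4) (max z5 z6)) 2 with hz
  have hz2' : 2 ≤ z := le_max_right _ _
  have hzz3 : z3 ≤ z := ((le_max_left _ _).trans (le_max_left _ _)).trans (le_max_left _ _)
  have hzz4 : z4 ≤ z := ((le_max_right _ _).trans (le_max_left _ _)).trans (le_max_left _ _)
  have hzz5 : z5 ≤ z := ((le_max_left _ _).trans (le_max_right _ _)).trans (le_max_left _ _)
  have hzz6 : z6 ≤ z := ((le_max_right _ _).trans (le_max_right _ _)).trans (le_max_left _ _)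
  obtain ⟨H3, hH3⟩ := hz3 z hzz3
  obtain ⟨H4, hH4⟩ := hz4 z hzz4
  obtain ⟨A5, hA53, hA5⟩ := hz5 z hzz5
  have h12z : 12 / (z : ℝ) ≤ t / 2 := by
    have h1 : 24 / t ≤ (z : ℝ) := hz6.trans (by exact_mod_cast hzz6)
    have h2 : (0 : ℝ) < z := by exact_mod_cast (by omega : 0 < z)
    rw [div_le_iff₀ ht0] at h1
    rw [div_le_div_iff₀ h2 (by norm_num)]
    linarith
  refine ⟨A5 + (H1 + H2 + H3 + H4), by omega, fun H hH x hAx hxB h hh => ?_⟩
  have hHr : (3 : ℝ) ≤ H := by exact_mod_cast (by omega : 3 ≤ H)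
  have hL0 : 0 ≤ Real.log H := Real.log_nonneg (by linarith)
  have hA5x : (A5 : ℝ) * Real.log H ≤ x := by
    refine le_trans ?_ hAx
    apply mul_le_mul_of_nonneg_right _ hL0
    exact_mod_cast Nat.le_add_right _ _
  have c1 := hA5 H (by omega) x hA5x hxB h hh
  have c2 := hH1 H (by omega) h hh
  have c3 := hH2 H (by omega) h hh
  have c4 := hH3 H (by omega) h hh
  have c5 := hH4 H (by omega) h hh
  have hN0 : (0 : ℝ) ≤ ((Bx 1 H).card : ℝ) := Nat.cast_nonneg _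
  have hb2 : e2 * ((Bx 1 H).card : ℝ) ≤ ε / 8 * (Bx 1 H).card := mul_le_mul_of_nonneg_right he2ε hN0
  have hb3 : e3 * ((Bx 1 H).card : ℝ) ≤ ε / 8 * (Bx 1 H).card := mul_le_mul_of_nonneg_right he3ε hN0
  refine (union5 ?_ c1 (c2.trans hb2) (c3.trans hb2) (c4.trans hb3) (c5.trans hb3)).trans ?_
  swap
  · nlinarith
  intro v hv
  rw [mem_filter] at hv
  obtain ⟨hvB, hbad⟩ := hv
  by_contra hcon
  simp only [mem_union, not_or] at hcon
  obtain ⟨⟨⟨⟨n1, n2⟩, n3⟩, n4⟩, n5⟩ := hcon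
  apply hbad
  clear hbad
  have g1 : ∀ y ≤ x, |∑ n ∈ Icc 1 y, om (Real.log H) (pv (mem g g' h v) n) -
      SS z (fun _ : Fin 1 => 0) (mem g g' h v) * y| ≤ ε / 8 * x := by
    intro y hy
    by_contra hlt
    push Not at hlt
    exact n1 (mem_filter.2 ⟨hvB, y, hy, hlt⟩)
  have g2 : ¬ IsSquare (dsc (mem g g' h v)) ∧ ∀ᶠ N in atTop, |SJ (dsc (mem g g' h v)) zs N| ≤ e2 := by
    by_contra hn
    exact n2 (mem_filter.2 ⟨hvB, hn⟩)
  have g3 : mem g g' h v 2 ≠ 0 ∧ ∀ N : ℕ, DS (mem g g' h v 2) zs N ≤ e2 := by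
    by_contra hn
    exact n3 (mem_filter.2 ⟨hvB, hn⟩)
  have g4 : ¬ IsSquare (dsc (mem g g' h v)) ∧ ∀ᶠ N in atTop, |SJ (dsc (mem g g' h v)) z N| ≤ e3 := by
    by_contra hn
    exact n4 (mem_filter.2 ⟨hvB, hn⟩)
  have g5 : mem g g' h v 2 ≠ 0 ∧ ∀ N : ℕ, DS (mem g g' h v 2) z N ≤ e3 := by
    by_contra hn
    exact n5 (mem_filter.2 ⟨hvB, hn⟩)
  set u := mem g g' h v with hu
  refine ⟨g3.1, g2.1, fun hadm => ?_⟩
  obtain ⟨κ, hκ, hlim⟩ := tendsto_CF (u 2) (u 1) (u 0) g3.1 g2.1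
  refine ⟨κ, hκ, hlim, fun y hy => ?_⟩
  have l1 := log_lim (u 2) (u 1) (u 0) κ hκ hlim zs hzs2 e2 g2.2 g3.2
  have l2 := log_lim (u 2) (u 1) (u 0) κ hκ hlim z hz2' e3 g4.2 g5.2
  have hS1 := SS_eq u hadm zs hzs2
  have hS2 := SS_eq u hadm z hz2'
  have hP1 := CF_pos (u 2) (u 1) (u 0) zs
  have hP2 := CF_pos (u 2) (u 1) (u 0) z
  have hle := SS_le_Cz' zs u
  -- the constant is bounded
  have hκ1 : 2 * κ ≤ K1 := by
    have h1 : Real.log κ ≤ Real.log (CF (u 2) (u 1) (u 0) zs) + 16 := by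
      have h2 := (abs_le.1 l1).2
      have h3 : 12 / (zs : ℝ) ≤ 12 := by
        apply div_le_self (by norm_num)
        exact_mod_cast (by omega : 1 ≤ zs)
      linarith
    have h2 : κ ≤ CF (u 2) (u 1) (u 0) zs * Real.exp 16 := by
      rw [← Real.exp_log hκ]
      calc Real.exp (Real.log κ) ≤ Real.exp (Real.log (CF (u 2) (u 1) (u 0) zs) + 16) := Real.exp_le_exp.2 h1
        _ = _ := by rw [Real.exp_add, Real.exp_log hP1]
    have h3 : 0 < Real.exp 16 := Real.exp_pos _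
    rw [hK1]
    nlinarith
  -- the cut constant at `z` against the limit
  have hdiff : |SS z (fun _ : Fin 1 => 0) u - 2 * κ| ≤ ε / 2 := by
    set s := Real.log (CF (u 2) (u 1) (u 0) z) - Real.log κ with hs
    have hst : |s| ≤ t := by
      rw [hs, abs_sub_comm]
      refine l2.trans ?_
      linarith
    have h1 : CF (u 2) (u 1) (u 0) z = κ * Real.exp s := by
      rw [hs, Real.exp_sub, Real.exp_log hP2, Real.exp_log hκ]
      field_simp
    have h2 : SS z (fun _ : Fin 1 => 0) u - 2 * κ = 2 * κ * (Real.exp s - 1) := by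
      rw [hS2, h1]; ring
    have h3 : |Real.exp s - 1| ≤ 2 * |s| := Real.abs_exp_sub_one_le (hst.trans ht1)
    rw [h2, abs_mul, abs_of_pos (by positivity : 0 < 2 * κ)]
    have h4 : K1 * (2 * t) ≤ ε / 2 := by
      have h5 : t * (4 * K1) ≤ ε := by rwa [le_div_iff₀ (by positivity)] at htε
      linarith
    calc 2 * κ * |Real.exp s - 1| ≤ K1 * (2 * t) := by
          apply mul_le_mul hκ1 (h3.trans (by linarith)) (abs_nonneg _) hK10.le
      _ ≤ ε / 2 := h4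
  have hyx : (y : ℝ) ≤ x := by exact_mod_cast hy
  have hy0 : (0 : ℝ) ≤ y := Nat.cast_nonneg _
  have hx0 : (0 : ℝ) ≤ x := Nat.cast_nonneg _
  have hmain := g1 y hy
  have hsec : |SS z (fun _ : Fin 1 => 0) u * y - 2 * κ * y| ≤ ε / 2 * x := by
    rw [← sub_mul, abs_mul, abs_of_nonneg hy0]
    exact mul_le_mul hdiff hyx hy0 (by positivity)
  have htri := abs_sub_le (∑ n ∈ Icc 1 y, om (Real.log H) (pv u n)) (SS z (fun _ : Fin 1 => 0) u * y) (2 * κ * y)
  calc |∑ n ∈ Icc 1 y, om (Real.log H) (pv u n) - 2 * κ * y| ≤ ε / 8 * x + ε / 2 * x := htri.trans (add_le_add hmain hsec)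
    _ ≤ ε * x := by nlinarith

end Pool.Agent.Helper44K9.PT
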