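import Pool.Agent.Helper24K9.PT.Stm2
import Pool.Agent.Helper44K9.PT.Full

set_option autoImplicit false

/-! The full constant from the cut one, for a class of positions. -/

namespace Pool.Agent.Helper44K9.PT

open Finset Filter Topology
open Pool.Agent.W468.ConjF (CF SJ Blk nr nr_odd nr_lin nr_none nr_two CF_tendsto CF_pos)
open Pool.Agent.Helper24K9.EL (QD DS CF_cmp)
open Pool.Agent.Helper24K9.PL (cA cB cC mem Nz S_ALL)
open Pool.Agent.Helper82K9.PR (Bx om SS pv nu Cz Cz_ge Cz_eq)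
open Pool.Agent.Helper24K9.PT

theorem fullc (g g' : Fin 3 → ℤ) (Q : (Fin 3 → ℤ) → Prop) :
    S_ALL → Nz g g' → S_MOSTc g g' Q → S_DSc g g' Q → S_FULLc g g' Q := by
  intro hall hgg hmost hds B0 C ε hε
  classical
  -- the first scale
  set e2 : ℝ := min 1 (ε / 8) with he2
  have he20 : 0 < e2 := by rw [he2]; positivity
  have he21 : e2 ≤ 1 := min_le_left _ _
  have he2ε : e2 ≤ ε / 8 := min_le_right _ _
  obtain ⟨z1, hz1⟩ := hmost C e2 he20
  obtain ⟨z2, hz2⟩ := hds C e2 he20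
  set zs := max (max z1 z2) 2 with hzs
  obtain ⟨H1, hH1⟩ := hz1 zs ((le_max_left _ _).trans (le_max_left _ _))
  obtain ⟨H2, hH2⟩ := hz2 zs ((le_max_right _ _).trans (le_max_left _ _))
  have hzs2 : 2 ≤ zs := le_max_right _ _
  set K1 : ℝ := Real.exp 16 * Cz zs with hK1
  have hK10 : 0 < K1 := by
    have := Cz_ge zs
    rw [hK1]; positivity
  -- the second scale
  set t : ℝ := min 1 (ε / (4 * K1)) with ht
  have ht0 : 0 < t := by rw [ht]; positivity
  have ht1 : t ≤ 1 := min_le_left _ _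
  have htε : t ≤ ε / (4 * K1) := min_le_right _ _
  set e3 : ℝ := min (ε / 8) (t / 8) with he3
  have he30 : 0 < e3 := by rw [he3]; positivity
  have he3ε : e3 ≤ ε / 8 := min_le_left _ _
  have he3t : e3 ≤ t / 8 := min_le_right _ _
  obtain ⟨z3, hz3⟩ := hmost C e3 he30
  obtain ⟨z4, hz4⟩ := hds C e3 he30
  obtain ⟨z5, hz51, hz5⟩ := hall g g' hgg B0 C (ε / 8) (by positivity)
  obtain ⟨z6, hz6⟩ := exists_nat_ge (24 / t)
  set z := max (max (max z3 z4) (max z5 z6)) 2 with hz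
  have hz2' : 2 ≤ z := le_max_right _ _
  have hzz3 : z3 ≤ z := ((le_max_left _ _).trans (le_max_left _ _)).trans (le_max_left _ _)
  have hzz4 : z4 ≤ z := ((le_max_right _ _).trans (le_max_left _ _)).trans (le_max_left _ _)
  have hzz5 : z5 ≤ z := ((le_max_left _ _).trans (le_max_right _ _)).trans (le_max_left _ _)
  have hzz6 : z6 ≤ z := ((le_max_right _ _).trans (le_max_right _ _)).trans (le_max_left _ _)
  obtain ⟨H3, hH3⟩ := hz3 z hzz3
  obtain ⟨H4, hH4⟩ := hz4 z hzz4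
  obtain ⟨A5, hA53, hA5⟩ := hz5 z hzz5
  have h12z : 12 / (z : ℝ) ≤ t / 2 := by
    have h1 : 24 / t ≤ (z : ℝ) := hz6.trans (by exact_mod_cast hzz6)
    have h2 : (0 : ℝ) < z := by exact_mod_cast (by omega : 0 < z)
    rw [div_le_iff₀ ht0] at h1
    rw [div_le_div_iff₀ h2 (by norm_num)]
    linarith
  refine ⟨A5 + (H1 + H2 + H3 + H4), by omega, fun H hH x hAx hxB h hQ hh => ?_⟩
  have hHr : (3 : ℝ) ≤ H := by exact_mod_cast (by omega : 3 ≤ H)
  have hL0 : 0 ≤ Real.log H := Real.log_nonneg (by linarith)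
  have hA5x : (A5 : ℝ) * Real.log H ≤ x := by
    refine le_trans ?_ hAx
    apply mul_le_mul_of_nonneg_right _ hL0
    exact_mod_cast Nat.le_add_right _ _
  have c1 := hA5 H (by omega) x hA5x hxB h hh
  have c2 := hH1 H (by omega) h hQ hh
  have c3 := hH2 H (by omega) h hQ hh
  have c4 := hH3 H (by omega) h hQ hh
  have c5 := hH4 H (by omega) h hQ hh
  have hN0 : (0 : ℝ) ≤ ((Bx 1 H).card : ℝ) := Nat.cast_nonneg _
  have hb2 : e2 * ((Bx 1 H).card : ℝ) ≤ ε / 8 * (Bx 1 H).card := mul_le_mul_of_nonneg_right he2ε hN0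
  have hb3 : e3 * ((Bx 1 H).card : ℝ) ≤ ε / 8 * (Bx 1 H).card := mul_le_mul_of_nonneg_right he3ε hN0
  refine (union5 ?_ c1 (c2.trans hb2) (c3.trans hb2) (c4.trans hb3) (c5.trans hb3)).trans ?_
  swap
  · nlinarith
  intro v hv
  rw [mem_filter] at hv
  obtain ⟨hvB, hbad⟩ := hv
  by_contra hcon
  simp only [mem_union, not_or] at hcon
  obtain ⟨⟨⟨⟨n1, n2⟩, n3⟩, n4⟩, n5⟩ := hcon
  apply hbad
  clear hbad
  have g1 : ∀ y ≤ x, |∑ n ∈ Icc 1 y, om (Real.log H) (pv (mem g g' h v) n) -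
      SS z (fun _ : Fin 1 => 0) (mem g g' h v) * y| ≤ ε / 8 * x := by
    intro y hy
    by_contra hlt
    push Not at hlt
    exact n1 (mem_filter.2 ⟨hvB, y, hy, hlt⟩)
  have g2 : ¬ IsSquare (dsc (mem g g' h v)) ∧ ∀ᶠ N in atTop, |SJ (dsc (mem g g' h v)) zs N| ≤ e2 := by
    by_contra hn
    exact n2 (mem_filter.2 ⟨hvB, hn⟩)
  have g3 : mem g g' h v 2 ≠ 0 ∧ ∀ N : ℕ, DS (mem g g' h v 2) zs N ≤ e2 := by
    by_contra hn
    exact n3 (mem_filter.2 ⟨hvB, hn⟩)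
  have g4 : ¬ IsSquare (dsc (mem g g' h v)) ∧ ∀ᶠ N in atTop, |SJ (dsc (mem g g' h v)) z N| ≤ e3 := by
    by_contra hn
    exact n4 (mem_filter.2 ⟨hvB, hn⟩)
  have g5 : mem g g' h v 2 ≠ 0 ∧ ∀ N : ℕ, DS (mem g g' h v 2) z N ≤ e3 := by
    by_contra hn
    exact n5 (mem_filter.2 ⟨hvB, hn⟩)
  set u := mem g g' h v with hu
  refine ⟨g3.1, g2.1, fun hadm => ?_⟩
  obtain ⟨κ, hκ, hlim⟩ := tendsto_CF (u 2) (u 1) (u 0) g3.1 g2.1
  refine ⟨κ, hκ, hlim, fun y hy => ?_⟩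
  have l1 := log_lim (u 2) (u 1) (u 0) κ hκ hlim zs hzs2 e2 g2.2 g3.2
  have l2 := log_lim (u 2) (u 1) (u 0) κ hκ hlim z hz2' e3 g4.2 g5.2
  have hS1 := SS_eq u hadm zs hzs2
  have hS2 := SS_eq u hadm z hz2'
  have hP1 := CF_pos (u 2) (u 1) (u 0) zs
  have hP2 := CF_pos (u 2) (u 1) (u 0) z
  have hle := SS_le_Cz' zs u
  -- the constant is bounded
  have hκ1 : 2 * κ ≤ K1 := by
    have h1 : Real.log κ ≤ Real.log (CF (u 2) (u 1) (u 0) zs) + 16 := by
      have h2 := (abs_le.1 l1).2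
      have h3 : 12 / (zs : ℝ) ≤ 12 := by
        apply div_le_self (by norm_num)
        exact_mod_cast (by omega : 1 ≤ zs)
      linarith
    have h2 : κ ≤ CF (u 2) (u 1) (u 0) zs * Real.exp 16 := by
      rw [← Real.exp_log hκ]
      calc Real.exp (Real.log κ) ≤ Real.exp (Real.log (CF (u 2) (u 1) (u 0) zs) + 16) := Real.exp_le_exp.2 h1
        _ = _ := by rw [Real.exp_add, Real.exp_log hP1]
    have h3 : 0 < Real.exp 16 := Real.exp_pos _
    rw [hK1]
    nlinarith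
  -- the cut constant at `z` against the limit
  have hdiff : |SS z (fun _ : Fin 1 => 0) u - 2 * κ| ≤ ε / 2 := by
    set s := Real.log (CF (u 2) (u 1) (u 0) z) - Real.log κ with hs
    have hst : |s| ≤ t := by
      rw [hs, abs_sub_comm]
      refine l2.trans ?_
      linarith
    have h1 : CF (u 2) (u 1) (u 0) z = κ * Real.exp s := by
      rw [hs, Real.exp_sub, Real.exp_log hP2, Real.exp_log hκ]
      field_simp
    have h2 : SS z (fun _ : Fin 1 => 0) u - 2 * κ = 2 * κ * (Real.exp s - 1) := by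
      rw [hS2, h1]; ring
    have h3 : |Real.exp s - 1| ≤ 2 * |s| := Real.abs_exp_sub_one_le (hst.trans ht1)
    rw [h2, abs_mul, abs_of_pos (by positivity : 0 < 2 * κ)]
    have h4 : K1 * (2 * t) ≤ ε / 2 := by
      have h5 : t * (4 * K1) ≤ ε := by rwa [le_div_iff₀ (by positivity)] at htε
      linarith
    calc 2 * κ * |Real.exp s - 1| ≤ K1 * (2 * t) := by
          apply mul_le_mul hκ1 (h3.trans (by linarith)) (abs_nonneg _) hK10.le
      _ ≤ ε / 2 := h4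
  have hyx : (y : ℝ) ≤ x := by exact_mod_cast hy
  have hy0 : (0 : ℝ) ≤ y := Nat.cast_nonneg _
  have hx0 : (0 : ℝ) ≤ x := Nat.cast_nonneg _
  have hmain := g1 y hy
  have hsec : |SS z (fun _ : Fin 1 => 0) u * y - 2 * κ * y| ≤ ε / 2 * x := by
    rw [← sub_mul, abs_mul, abs_of_nonneg hy0]
    exact mul_le_mul hdiff hyx hy0 (by positivity)
  have htri := abs_sub_le (∑ n ∈ Icc 1 y, om (Real.log H) (pv u n)) (SS z (fun _ : Fin 1 => 0) u * y) (2 * κ * y)
  calc |∑ n ∈ Icc 1 y, om (Real.log H) (pv u n) - 2 * κ * y| ≤ ε / 8 * x + ε / 2 * x := htri.trans (add_le_add hmain hsec)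
    _ ≤ ε * x := by nlinarith

end Pool.Agent.Helper44K9.PT
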